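import Pool.Agent.H53.GR.Targets

/-!
Board gar_modules, row RE1: correctness of the reduction.
-/

set_option autoImplicit false

namespace Pool.Agent.H81.GR

open Pool.Agent.H68.BP Pool.Agent.H58.SF Pool.Agent.H53.GC Pool.Agent.H53.NR Pool.Agent.H58.GR
open Pool.Agent.H53.GR

namespace RE1

/-- ranks -/
theorem exists_rank {n m : ℕ} (z : Fin m → Fin n) :
    ∃ t : Fin m → Fin m, ∀ a b, z a ≤ z b ↔ t a ≤ t b := by
  classical
  set S : Finset (Fin n) := Finset.univ.image z with hS
  have hcard : S.card ≤ m := by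
    refine Finset.card_image_le.trans ?_
    rw [Finset.card_univ, Fintype.card_fin]
  have hmem : ∀ a, z a ∈ S := fun a => Finset.mem_image_of_mem z (Finset.mem_univ a)
  refine ⟨fun a => Fin.castLE hcard ((S.orderIsoOfFin rfl).symm ⟨z a, hmem a⟩), fun a b => ?_⟩
  rw [Fin.castLE_le_castLE_iff, OrderIso.le_iff_le]
  exact Iff.rfl

variable {τ : Sig} {V W : Type} [LinearOrder W] {M r : ℕ}

/-- The structure on `W` given by the patterns `q`. -/
def Y (q : (j : Fin M) → (Fin (j + 1) → W) → Dm τ M) : Str τ W :=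
  fun l z => ∃ (j : Fin M) (en : Fin (j + 1) → W) (z' : Fin (τ.ar l) → Fin (j + 1))
    (T : Str τ (Fin (j + 1))), StrictMono en ∧ (∀ i, z i = en (z' i)) ∧
    Function.Surjective z' ∧ q j en = ⟨j, T⟩ ∧ T l z'

/-- The pattern at the enumeration `en` of the entries of a tuple. -/
theorem key (𝔹 : Str τ V) (q : (j : Fin M) → (Fin (j + 1) → W) → Dm τ M)
    (y : Fin r → W) (t : Fin r → Fin r) (x : Fin r → V)
    (ht : ∀ a b, y a ≤ y b ↔ t a ≤ t b) (hx : ∀ a b, t a = t b → x a = x b)
    (hq : ∀ (j : Fin M) (α : Fin (j + 1) → Fin r), StrictMono (fun i => t (α i)) →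
      q j (fun i => y (α i)) = ⟨j, spl 𝔹 (fun i => x (α i))⟩)
    (l : Fin τ.m) (a : Fin (τ.ar l) → Fin r) (j : Fin M) (en : Fin (j + 1) → W)
    (z' : Fin (τ.ar l) → Fin (j + 1)) (hen : StrictMono en) (hz : ∀ i, y (a i) = en (z' i))
    (hs : Function.Surjective z') :
    ∃ T : Str τ (Fin (j + 1)), q j en = ⟨j, T⟩ ∧ (T l z' ↔
      (𝔹 l (fun i => x (a i)) ∧ ∀ i i', x (a i) = x (a i') → y (a i) = y (a i'))) := by
  obtain ⟨β, hβ⟩ := hs.hasRightInverse
  have hyt : ∀ b c, y b = y c → x b = x c := fun b c h =>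
    hx b c (le_antisymm ((ht b c).1 h.le) ((ht c b).1 h.ge))
  have hyα : ∀ i, y (a (β i)) = en i := fun i => by rw [hz, hβ i]
  have hmono : StrictMono (fun i => t (a (β i))) := by
    intro i i' hii
    have h1 : en i < en i' := hen hii
    have h2 : ¬ y (a (β i')) ≤ y (a (β i)) := by
      rw [hyα, hyα]
      exact not_le.2 h1
    exact lt_of_not_ge fun h3 => h2 ((ht _ _).2 h3)
  have h1 := hq j (fun i => a (β i)) hmono
  have h2 : (fun i => y (a (β i))) = en := funext hyα
  rw [h2] at h1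
  have hxa : ∀ i, x (a (β (z' i))) = x (a i) := fun i => hyt _ _ (by rw [hyα, hz])
  refine ⟨_, h1, ?_⟩
  constructor
  · rintro ⟨h3, h4⟩
    refine ⟨?_, fun i i' hii => ?_⟩
    · have h5 : (fun i => x (a (β (z' i)))) = fun i => x (a i) := funext hxa
      exact Eq.mp (congrArg (𝔹 l) h5) h3
    · rw [hz, hz, h4 i i' ((hxa i).trans (hii.trans (hxa i').symm))]
  · rintro ⟨h3, h4⟩
    refine ⟨?_, fun i i' hii => ?_⟩
    · have h5 : (fun i => x (a i)) = fun i => x (a (β (z' i))) := funext fun i => (hxa i).symm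
      exact Eq.mp (congrArg (𝔹 l) h5) h3
    · have h5 := h4 i i' ((hxa i).symm.trans (hii.trans (hxa i')))
      rw [hz, hz] at h5
      exact hen.injective h5

/-- The relations of `Y q` on the entries of `y`. -/
theorem Y_iff (𝔹 : Str τ V) (har : ∀ l, 1 ≤ τ.ar l ∧ τ.ar l ≤ M)
    (q : (j : Fin M) → (Fin (j + 1) → W) → Dm τ M)
    (y : Fin r → W) (t : Fin r → Fin r) (x : Fin r → V)
    (ht : ∀ a b, y a ≤ y b ↔ t a ≤ t b) (hx : ∀ a b, t a = t b → x a = x b)
    (hq : ∀ (j : Fin M) (α : Fin (j + 1) → Fin r), StrictMono (fun i => t (α i)) →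
      q j (fun i => y (α i)) = ⟨j, spl 𝔹 (fun i => x (α i))⟩)
    (l : Fin τ.m) (a : Fin (τ.ar l) → Fin r) :
    Y q l (fun i => y (a i)) ↔
      (𝔹 l (fun i => x (a i)) ∧ ∀ i i', x (a i) = x (a i') → y (a i) = y (a i')) := by
  classical
  constructor
  · rintro ⟨j, en, z', T, hen, hz, hs, hqT, hT⟩
    obtain ⟨T', h1, h2⟩ := key 𝔹 q y t x ht hx hq l a j en z' hen hz hs
    rw [h1] at hqT
    have h3 : T' = T := eq_of_heq (Sigma.mk.inj hqT).2
    rw [← h3] at hT
    exact h2.1 hT
  · intro h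
    obtain ⟨e, he⟩ : ∃ e : Finset W, e = Finset.univ.image (fun i => y (a i)) := ⟨_, rfl⟩
    have hmem : ∀ w, w ∈ e ↔ ∃ i, y (a i) = w := by
      intro w
      rw [he, Finset.mem_image]
      exact ⟨fun ⟨i, _, h⟩ => ⟨i, h⟩, fun ⟨i, h⟩ => ⟨i, Finset.mem_univ i, h⟩⟩
    have h1 : 1 ≤ e.card := by
      rw [Nat.one_le_iff_ne_zero, Ne, Finset.card_eq_zero, ← Ne, ← Finset.nonempty_iff_ne_empty]
      exact ⟨y (a ⟨0, (har l).1⟩), (hmem _).2 ⟨_, rfl⟩⟩
    have h2 : e.card ≤ M := by
      rw [he]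
      refine Finset.card_image_le.trans ?_
      rw [Finset.card_univ, Fintype.card_fin]
      exact (har l).2
    obtain ⟨j, hj⟩ : ∃ j : Fin M, e.card = (j : ℕ) + 1 := ⟨⟨e.card - 1, by omega⟩, by
      show e.card = e.card - 1 + 1
      omega⟩
    have h3 : ∀ i, ∃ i' : Fin (j + 1), y (a i) = e.orderEmbOfFin hj i' := by
      intro i
      have h4 : y (a i) ∈ Set.range (e.orderEmbOfFin hj) := by
        rw [Finset.range_orderEmbOfFin]
        exact Finset.mem_coe.2 ((hmem _).2 ⟨i, rfl⟩)
      obtain ⟨i', hi'⟩ := h4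
      exact ⟨i', hi'.symm⟩
    choose z' hz' using h3
    have hs : Function.Surjective z' := by
      intro i'
      obtain ⟨i, hi⟩ := (hmem _).1 (Finset.orderEmbOfFin_mem e hj i')
      exact ⟨i, (e.orderEmbOfFin hj).injective ((hz' i).symm.trans hi)⟩
    obtain ⟨T, h4, h5⟩ := key 𝔹 q y t x ht hx hq l a j (e.orderEmbOfFin hj) z'
      (e.orderEmbOfFin hj).strictMono hz' hs
    exact ⟨j, e.orderEmbOfFin hj, z', T, (e.orderEmbOfFin hj).strictMono, hz', hs, h4, h5.2 h⟩

end RE1

open RE1

/-- correctness of the reduction -/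
theorem pf_RE1 : Pool.Agent.H53.GR.T_RE1 := by
  intro σ τ V _ 𝔸 𝔹 M hS n 𝕏
  constructor
  · rintro ⟨f, hf⟩
    obtain ⟨v0⟩ := hS.ne
    obtain ⟨F, hF⟩ : ∃ F : Fin (n + M) → V, F = Fin.addCases f (fun _ => v0) := ⟨_, rfl⟩
    have hFc : ∀ i, F (Fin.castAdd M i) = f i := fun i => by rw [hF]; exact Fin.addCases_left i
    refine ⟨fun j z => ⟨j, spl 𝔹 (fun i => F (z i))⟩, fun s y t hrel ht => ?_⟩
    refine ⟨fun a => F (y a), ?_, fun a b hab => congrArg F
      (le_antisymm ((ht a b).2 hab.le) ((ht b a).2 hab.ge)), fun j α _ => rfl⟩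
    cases s with
    | none => trivial
    | some l =>
      obtain ⟨z, hz, hyz⟩ := hrel
      have h1 : 𝔸 l (fun i => f (z i)) := hf l z hz
      have h2 : (fun i => f (z i)) = (fun a => F (y a)) := by
        funext i
        rw [hyz]
        exact (hFc (z i)).symm
      exact Eq.mp (congrArg (𝔸 l) h2) h1
  · rintro ⟨q, hq⟩
    have hOK : OK 𝔹 M (pull (Y q) (Fin.castAdd M : Fin n → Fin (n + M))) := by
      intro m s hm hs hirr
      obtain ⟨y, hy⟩ : ∃ y : Fin M → Fin (n + M), y = fun a =>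
        if h : a.1 < m then Fin.castAdd M (s ⟨a.1, h⟩) else Fin.natAdd n a := ⟨_, rfl⟩
      have hyinj : Function.Injective y := by
        intro a b hab
        rw [hy] at hab
        dsimp only at hab
        by_cases ha : a.1 < m
        · by_cases hb : b.1 < m
          · simp only [dif_pos ha, dif_pos hb] at hab
            have h1 := hs (Fin.castAdd_injective _ _ hab)
            rw [Fin.mk.injEq] at h1
            exact Fin.ext h1
          · simp only [dif_pos ha, dif_neg hb] at hab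
            have h1 := congrArg Fin.val hab
            simp only [Fin.val_castAdd, Fin.val_natAdd] at h1
            have := (s ⟨a.1, ha⟩).2
            omega
        · by_cases hb : b.1 < m
          · simp only [dif_neg ha, dif_pos hb] at hab
            have h1 := congrArg Fin.val hab
            simp only [Fin.val_castAdd, Fin.val_natAdd] at h1
            have := (s ⟨b.1, hb⟩).2
            omega
          · simp only [dif_neg ha, dif_neg hb] at hab
            have h1 := congrArg Fin.val hab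
            simp only [Fin.val_natAdd] at h1
            exact Fin.ext (by omega)
      obtain ⟨t, ht⟩ := exists_rank y
      obtain ⟨x, -, hx1, hx2⟩ := hq none y t trivial ht
      have hY := fun l (a : Fin (τ.ar l) → Fin M) => Y_iff 𝔹 hS.ar q y t x ht hx1 hx2 l a
      obtain ⟨c, hc⟩ : ∃ c : Fin m → Fin M, c = fun i => ⟨i.1, lt_of_lt_of_le i.2 hm⟩ := ⟨_, rfl⟩
      have hyc : ∀ i, y (c i) = Fin.castAdd M (s i) := by
        intro i
        rw [hy, hc]
        exact dif_pos i.2
      have hpull : ∀ l (z : Fin (τ.ar l) → Fin m),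
          pull (pull (Y q) (Fin.castAdd M : Fin n → Fin (n + M))) s l z ↔
            (𝔹 l (fun i => x (c (z i))) ∧
              ∀ i i', x (c (z i)) = x (c (z i')) → y (c (z i)) = y (c (z i'))) := by
        intro l z
        refine Iff.trans ?_ (hY l (fun i => c (z i)))
        have h1 : (fun i => y (c (z i))) = fun i => Fin.castAdd M (s (z i)) :=
          funext fun i => hyc (z i)
        rw [h1]
        exact Iff.rfl
      have hcinj : Function.Injective (fun i => x (c i)) := by
        intro i i' hii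
        by_contra hne
        obtain ⟨l, z, hz, ⟨i₁, h1⟩, i₂, h2⟩ := hirr i i' hne
        have h3 := ((hpull l z).1 hz).2 i₁ i₂ (by rw [h1, h2]; exact hii)
        have h4 := hyinj h3
        rw [h1, h2, hc] at h4
        rw [Fin.mk.injEq] at h4
        exact hne (Fin.ext h4)
      refine ⟨fun i => x (c i), hcinj, fun l z => ?_⟩
      rw [hpull]
      constructor
      · exact fun h => h.1
      · intro h
        refine ⟨h, fun i i' hii => ?_⟩
        rw [hcinj hii]
    obtain ⟨f, hfm, hfi, hf⟩ := hS.univ n _ hOK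
    refine ⟨f, fun l z hz => ?_⟩
    obtain ⟨t, ht⟩ := exists_rank z
    have ht' : ∀ a b, Fin.castAdd M (z a) ≤ Fin.castAdd M (z b) ↔ t a ≤ t b := by
      intro a b
      refine Iff.trans ?_ (ht a b)
      rw [Fin.le_def, Fin.le_def]
      exact Iff.rfl
    obtain ⟨x, hx1, hx2, hx3⟩ := hq (some l) (fun a => Fin.castAdd M (z a)) t ⟨z, hz, rfl⟩ ht'
    have hzt : ∀ a b, z a = z b → x a = x b := fun a b h =>
      hx2 a b (le_antisymm ((ht a b).1 h.le) ((ht b a).1 h.ge))
    refine hS.split l x (fun i => f (z i)) hx1 ⟨fun a b hab => hzt a b (hfi hab), fun l' a => ?_⟩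
    have h1 := hf l' (fun i => z (a i))
    have h2 := Y_iff (r := σ.ar l) 𝔹 hS.ar q (fun a => Fin.castAdd M (z a)) t x ht' hx2 hx3 l' a
    refine Iff.trans h1.symm (Iff.trans h2 (and_congr_right fun _ => ?_))
    refine forall_congr' fun i => forall_congr' fun i' => imp_congr_right fun _ => ?_
    constructor
    · intro h
      exact congrArg f (Fin.castAdd_injective _ _ h)
    · intro h
      exact congrArg (Fin.castAdd M) (hfi h)

end Pool.Agent.H81.GR
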